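import Pool.Agent.H30.BV.Targets

/-! # Module LL of the board bv_modules: lower sieve for `p ^ 2 - 2` over primes -/

set_option autoImplicit false

open Finset Real ArithmeticFunction
open scoped Nat

namespace Pool.Agent.H87.BV

open Pool.Agent.H30.BV
open Pool.Agent.H27.LS (hat trig muGT gam)
open Pool.Agent.H30.PF (S8 pr)

theorem mem_PZ {z : ℝ} {p₁ p : ℕ} (h : p ∈ PZ z p₁) : p.Prime ∧ 3 ≤ p ∧ p ≠ p₁ := by
  unfold PZ at h
  rw [mem_filter, mem_Icc] at h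
  exact ⟨h.2.1, h.1.1, h.2.2⟩

theorem gg_bounds {z : ℝ} {p₁ p : ℕ} (h : p ∈ PZ z p₁) :
    0 ≤ gg p ∧ gg p ≤ 3 / p ∧ gg p ≤ 1 / 2 := by
  obtain ⟨hp, h3, -⟩ := mem_PZ h
  have h3' : (3 : ℝ) ≤ p := by exact_mod_cast h3
  unfold gg
  split_ifs with hS
  · have h5 : 5 ≤ p := by
      by_contra h5
      have h6 : p = 3 ∨ p = 4 := by omega
      rcases h6 with rfl | rfl
      · rcases hS with h | h <;> omega
      · rcases hS with h | h <;> omega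
    have h5' : (5 : ℝ) ≤ p := by exact_mod_cast h5
    refine ⟨by apply div_nonneg <;> linarith, ?_, ?_⟩
    · rw [div_le_div_iff₀ (by linarith) (by linarith)]
      linarith
    · rw [div_le_div_iff₀ (by linarith) (by norm_num)]
      linarith
  · exact ⟨le_rfl, by positivity, by norm_num⟩

theorem hd_nonneg (d : ℕ) : 0 ≤ hd d := by
  unfold hd
  positivity

theorem SC_nonneg (X : ℝ) (d : ℕ) : 0 ≤ SC X d := by
  unfold SC
  apply finsum_nonneg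
  intro χ
  split_ifs
  · exact le_rfl
  · exact norm_nonneg _

/-- the product of a subset of `PZ` -/
theorem prod_facts {z : ℝ} {p₁ : ℕ} (hp₁ : p₁.Prime) {s : Finset ℕ} (hs : s ⊆ PZ z p₁) :
    (∏ p ∈ s, p).primeFactors = s ∧ Squarefree (∏ p ∈ s, p) ∧ Odd (∏ p ∈ s, p) ∧
      ¬ p₁ ∣ ∏ p ∈ s, p ∧ 1 ≤ ∏ p ∈ s, p ∧
      ∀ x : ℤ, (((∏ p ∈ s, p : ℕ) : ℤ) ∣ x ↔ ∀ p ∈ s, (p : ℤ) ∣ x) := by
  have hpr : ∀ p ∈ s, p.Prime := fun p hp => (mem_PZ (hs hp)).1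
  have h1 : (∏ p ∈ s, p).primeFactors = s := Nat.primeFactors_prod hpr
  have hpos : 1 ≤ ∏ p ∈ s, p := Nat.one_le_iff_ne_zero.2
    (Finset.prod_ne_zero_iff.2 fun p hp => (hpr p hp).ne_zero)
  have hdiv : ∀ q : ℕ, q.Prime → q ∣ ∏ p ∈ s, p → q ∈ s := by
    intro q hq hqd
    rw [← h1]
    exact Nat.mem_primeFactors.2 ⟨hq, hqd, by omega⟩
  refine ⟨h1, ?_, ?_, ?_, hpos, ?_⟩
  · refine Finset.squarefree_prod_of_pairwise_isCoprime (fun p hp q hq hpq => ?_)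
      (fun p hp => (hpr p hp).prime.squarefree)
    exact Nat.coprime_iff_isRelPrime.1 ((Nat.coprime_primes (hpr p hp) (hpr q hq)).2 hpq)
  · rw [← Nat.not_even_iff_odd, even_iff_two_dvd]
    intro h
    have := (mem_PZ (hs (hdiv 2 Nat.prime_two h))).2.1
    omega
  · intro h
    exact (mem_PZ (hs (hdiv p₁ hp₁ h))).2.2 rfl
  · intro x
    rw [Nat.cast_prod]
    constructor
    · intro h p hp
      exact (Finset.dvd_prod_of_mem (fun p : ℕ => (p : ℤ)) hp).trans h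
    · intro h
      refine Finset.prod_dvd_of_coprime ?_ h
      intro p hp q hq hpq
      exact Nat.isCoprime_iff_coprime.2 ((Nat.coprime_primes (hpr p hp) (hpr q hq)).2 hpq)

theorem Sad_sub {P : Finset ℕ} {lev b : ℕ → ℕ} {t : ℕ} {s : Finset ℕ} (h : s ∈ Sad P lev b t) :
    s ⊆ P := by
  unfold Sad at h
  exact Finset.mem_powerset.1 (Finset.mem_filter.1 h).1

theorem prod_injOn {z : ℝ} {p₁ : ℕ} (hp₁ : p₁.Prime) {lev b : ℕ → ℕ} {t : ℕ} :
    Set.InjOn (fun s : Finset ℕ => ∏ p ∈ s, p) (Sad (PZ z p₁) lev b t : Set (Finset ℕ)) := by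
  intro s hs s' hs' h
  have h1 := (prod_facts hp₁ (Sad_sub hs)).1
  have h2 := (prod_facts hp₁ (Sad_sub hs')).1
  have h3 : ∏ p ∈ s, p = ∏ p ∈ s', p := h
  rw [← h1, ← h2, h3]

theorem er_bound (hAD : T_AD) {X z : ℝ} {p₁ : ℕ} (hX : 3 ≤ X) (hp₁ : p₁.Prime)
    {lev b : ℕ → ℕ} {t D : ℕ} (hD : ∀ s ∈ Sad (PZ z p₁) lev b t, ∏ p ∈ s, p ≤ D)
    (hDX : (D : ℝ) ≤ X) :
    Er (Icc 1 (NX X)) (wx X) (fun p n => (p : ℤ) ∣ (n : ℤ) ^ 2 - 2) gg (WX X) (PZ z p₁) lev b t ≤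
      ∑ d ∈ DD D p₁, hd d * (SC X d + 8 * Real.log X ^ 2) := by
  classical
  unfold Er
  have hterm : ∀ s ∈ Sad (PZ z p₁) lev b t,
      |As (Icc 1 (NX X)) (wx X) (fun p n => (p : ℤ) ∣ (n : ℤ) ^ 2 - 2) s -
        WX X * ∏ p ∈ s, gg p| ≤
      (fun d : ℕ => hd d * (SC X d + 8 * Real.log X ^ 2)) (∏ p ∈ s, p) := by
    intro s hs
    obtain ⟨h1, h2, h3, h4, h5, h6⟩ := prod_facts hp₁ (Sad_sub hs)
    have h7 : ((∏ p ∈ s, p : ℕ) : ℝ) ≤ X := le_trans (by exact_mod_cast hD s hs) hDX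
    have h8 := hAD X (∏ p ∈ s, p) hX h7 h2 h3
    rw [h1] at h8
    have h9 : As (Icc 1 (NX X)) (wx X) (fun p n => (p : ℤ) ∣ (n : ℤ) ^ 2 - 2) s =
        ∑ n ∈ (Icc 1 (NX X)).filter (fun n : ℕ => ((∏ p ∈ s, p : ℕ) : ℤ) ∣ (n : ℤ) ^ 2 - 2),
          wx X n := by
      unfold As
      refine Finset.sum_congr ?_ fun _ _ => rfl
      ext n
      simp only [Finset.mem_filter]
      rw [h6]
    rw [h9]
    exact h8
  refine (Finset.sum_le_sum hterm).trans ?_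
  rw [← Finset.sum_image (f := fun d : ℕ => hd d * (SC X d + 8 * Real.log X ^ 2))
    (prod_injOn hp₁)]
  refine Finset.sum_le_sum_of_subset_of_nonneg ?_ ?_
  · intro d hd'
    obtain ⟨s, hs, rfl⟩ := Finset.mem_image.1 hd'
    obtain ⟨h1, h2, h3, h4, h5, h6⟩ := prod_facts hp₁ (Sad_sub hs)
    unfold DD
    exact Finset.mem_filter.2 ⟨Finset.mem_Icc.2 ⟨h5, hD s hs⟩, h2, h3, h4⟩
  · intro d _ _
    exact mul_nonneg (hd_nonneg d) (add_nonneg (SC_nonneg X d) (by positivity))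

/-- eventual facts used at the scale `X` -/
theorem ev_facts (η : ℝ) (hη : 0 < η) (c K X₁ : ℝ) (hc : 0 < c) : ∃ X₀ : ℝ, ∀ X : ℝ, X₀ ≤ X →
    X₁ ≤ X ∧ 256 ^ 2 ≤ X ∧ 3 ≤ X ^ η ∧ 2 ≤ Real.log X ∧ 2 / Real.log X ≤ c ∧
      K * Real.log X ^ 6 ≤ c * X := by
  have h1 : ∀ᶠ X : ℝ in Filter.atTop, X₁ ≤ X := Filter.eventually_ge_atTop X₁
  have h2 : ∀ᶠ X : ℝ in Filter.atTop, (256 : ℝ) ^ 2 ≤ X := Filter.eventually_ge_atTop _
  have h3 : ∀ᶠ X : ℝ in Filter.atTop, 3 ≤ X ^ η :=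
    (tendsto_rpow_atTop hη).eventually_ge_atTop 3
  have h4 : ∀ᶠ X : ℝ in Filter.atTop, 2 ≤ Real.log X :=
    Real.tendsto_log_atTop.eventually_ge_atTop 2
  have h5 : ∀ᶠ X : ℝ in Filter.atTop, 2 / c ≤ Real.log X :=
    Real.tendsto_log_atTop.eventually_ge_atTop _
  have h6 : ∀ᶠ X : ℝ in Filter.atTop, |K| * Real.log X ^ 6 ≤ c * X := by
    have h7 : (fun X : ℝ => Real.log X ^ 6) =o[Filter.atTop] (fun X : ℝ => X) := by
      have := isLittleO_log_rpow_rpow_atTop (s := 1) 6 (by norm_num)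
      refine (this.congr_left ?_).congr_right ?_
      · intro x
        exact Real.rpow_natCast _ 6
      · intro x
        exact Real.rpow_one x
    have h8 := h7.bound (show (0 : ℝ) < c / (|K| + 1) by positivity)
    filter_upwards [h8, Filter.eventually_ge_atTop (1 : ℝ)] with X hX hX1
    rw [Real.norm_of_nonneg (by positivity), Real.norm_of_nonneg (by linarith)] at hX
    have h9 : (|K| + 1) * Real.log X ^ 6 ≤ c * X := by
      calc (|K| + 1) * Real.log X ^ 6 ≤ (|K| + 1) * (c / (|K| + 1) * X) := by gcongr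
        _ = c * X := by field_simp
    have h10 : 0 ≤ Real.log X ^ 6 := by positivity
    have h11 : (|K| + 1) * Real.log X ^ 6 = |K| * Real.log X ^ 6 + Real.log X ^ 6 := by ring
    linarith
  obtain ⟨X₀, hX₀⟩ := Filter.eventually_atTop.1
    (((((h1.and h2).and h3).and h4).and h5).and h6)
  refine ⟨X₀, fun X hX => ?_⟩
  obtain ⟨⟨⟨⟨⟨g1, g2⟩, g3⟩, g4⟩, g5⟩, g6⟩ := hX₀ X hX
  refine ⟨g1, g2, g3, g4, ?_, ?_⟩
  · rw [div_le_iff₀ (by linarith)]
    rw [div_le_iff₀ hc] at g5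
    linarith
  · exact (mul_le_mul_of_nonneg_right (le_abs_self K) (by positivity)).trans g6

theorem ll (hBL : T_BL) (hBV : T_BV) (hAD : T_AD) (hHS : T_HS) (hQJ : T_QJ) (hVL : T_VL)
    (hLV : T_LV) (hWM : T_WM) : T_LL := by
  obtain ⟨b, hb⟩ := hQJ
  obtain ⟨cV, hcV, hV⟩ := hVL
  obtain ⟨cW, XW, hcW, hW⟩ := hWM
  obtain ⟨CH, hCH, hH⟩ := hHS
  refine ⟨1 / (20 * (4 * b + 6)), by positivity, ?_⟩
  intro η hη hη0
  have hb0 : (0 : ℝ) ≤ b := Nat.cast_nonneg b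
  have hηb : η * (4 * b + 6) ≤ 1 / 20 := by
    calc η * (4 * b + 6) ≤ 1 / (20 * (4 * b + 6)) * (4 * b + 6) := by gcongr
      _ = 1 / 20 := by field_simp
  have hη1 : η ≤ 1 / 120 := by
    have h : η * 6 ≤ η * (4 * b + 6) := mul_le_mul_of_nonneg_left (by linarith) hη.le
    linarith
  obtain ⟨c, hc⟩ : ∃ c : ℝ, c = cW * cV / (8 * η) := ⟨_, rfl⟩
  have hc0 : 0 < c := by rw [hc]; positivity
  refine ⟨2 * c, by positivity, ?_⟩
  intro M
  obtain ⟨X₁, hX₁⟩ := hBV 3 (max M 3)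
  obtain ⟨X₀, hX₀⟩ := ev_facts η hη c (16 * CH) (max X₁ XW) hc0
  refine ⟨X₀, fun X hX => ?_⟩
  obtain ⟨g1, g2, g3, g4, g5, g6⟩ := hX₀ X hX
  obtain ⟨p₁, hp₁, hMp, hp8, hBVX⟩ := hX₁ X ((le_max_left _ _).trans g1)
  refine ⟨p₁, hp₁, (le_max_left _ _).trans hMp, hp8, ?_⟩
  have hX3 : 3 ≤ X := by
    have : (3 : ℝ) ≤ 256 ^ 2 := by norm_num
    linarith
  have hX0 : 0 < X := by linarith
  have hX1 : 1 ≤ X := by linarith
  obtain ⟨z, hz⟩ : ∃ z : ℝ, z = X ^ η := ⟨_, rfl⟩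
  rw [← hz] at g3 ⊢
  have hlz : Real.log z = η * Real.log X := by rw [hz, Real.log_rpow hX0]
  obtain ⟨W1, W2⟩ := hW X ((le_max_right _ _).trans g1)
  have hWX0 : 0 ≤ WX X := le_trans (by positivity) W1
  obtain ⟨lv1, lv2, lv3, lv4⟩ := hLV z p₁ g3
  have hQ := hb z p₁ gg g3 fun p hp => gg_bounds hp
  -- the level of distribution
  obtain ⟨D, hD⟩ : ∃ D : ℕ, D = ⌊X ^ (1 / 20 : ℝ)⌋₊ := ⟨_, rfl⟩
  have hDle : (D : ℝ) ≤ X ^ (1 / 20 : ℝ) := by
    rw [hD]; exact Nat.floor_le (by positivity)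
  have hD8 : (2 * (D : ℝ)) ^ 8 ≤ X := by
    have h1 : (D : ℝ) ^ 8 ≤ X ^ (2 / 5 : ℝ) := by
      calc (D : ℝ) ^ 8 ≤ (X ^ (1 / 20 : ℝ)) ^ 8 := pow_le_pow_left₀ (Nat.cast_nonneg _) hDle 8
        _ = X ^ (2 / 5 : ℝ) := by
          rw [← Real.rpow_natCast, ← Real.rpow_mul hX0.le]; norm_num
    have h2 : (256 : ℝ) ≤ X ^ (3 / 5 : ℝ) := by
      calc (256 : ℝ) = ((256 : ℝ) ^ 2) ^ (1 / 2 : ℝ) := by
            rw [← Real.rpow_natCast, ← Real.rpow_mul (by norm_num)]; norm_num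
        _ ≤ X ^ (1 / 2 : ℝ) := Real.rpow_le_rpow (by norm_num) g2 (by norm_num)
        _ ≤ X ^ (3 / 5 : ℝ) := Real.rpow_le_rpow_of_exponent_le hX1 (by norm_num)
    calc (2 * (D : ℝ)) ^ 8 = 256 * (D : ℝ) ^ 8 := by ring
      _ ≤ X ^ (3 / 5 : ℝ) * X ^ (2 / 5 : ℝ) := by gcongr
      _ = X := by rw [← Real.rpow_add hX0]; norm_num
  have hDX : (D : ℝ) ≤ X := by
    refine hDle.trans ?_
    calc X ^ (1 / 20 : ℝ) ≤ X ^ (1 : ℝ) := Real.rpow_le_rpow_of_exponent_le hX1 (by norm_num)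
      _ = X := Real.rpow_one X
  have hDlog : Real.log ((D : ℝ) + 2) ≤ Real.log X := by
    apply Real.log_le_log (by positivity)
    have h1 : (2 * (D : ℝ)) ≤ X ^ (1 / 8 : ℝ) := by
      calc (2 * (D : ℝ)) = ((2 * (D : ℝ)) ^ 8) ^ (1 / 8 : ℝ) := by
            rw [← Real.rpow_natCast, ← Real.rpow_mul (by positivity)]; norm_num
        _ ≤ X ^ (1 / 8 : ℝ) := Real.rpow_le_rpow (by positivity) hD8 (by norm_num)
    have h2 : X ^ (1 / 8 : ℝ) ≤ X := by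
      calc X ^ (1 / 8 : ℝ) ≤ X ^ (1 : ℝ) := Real.rpow_le_rpow_of_exponent_le hX1 (by norm_num)
        _ = X := Real.rpow_one X
    have h3 : (4 : ℝ) ≤ X := by
      have : (4 : ℝ) ≤ 256 ^ 2 := by norm_num
      linarith
    linarith
  have hDs : ∀ s ∈ Sad (PZ z p₁) (lv z) (fun j => b + j) (nl z), ∏ p ∈ s, p ≤ D := by
    intro s hs
    rw [hD]
    apply Nat.le_floor
    refine (lv3 b s hs).trans ?_
    rw [hz, ← Real.rpow_natCast, ← Real.rpow_mul hX0.le]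
    apply Real.rpow_le_rpow_of_exponent_le hX1
    push_cast
    exact hηb
  have hEr := er_bound hAD (z := z) (lev := lv z) (b := fun j => b + j) (t := nl z)
    hX3 hp₁ hDs hDX
  have hEr2 : ∑ d ∈ DD D p₁, hd d * (SC X d + 8 * Real.log X ^ 2) ≤
      X / Real.log X ^ 3 + 8 * CH * Real.log X ^ 4 := by
    have h1 : ∑ d ∈ DD D p₁, hd d * (SC X d + 8 * Real.log X ^ 2) =
        ∑ d ∈ DD D p₁, hd d * SC X d + 8 * Real.log X ^ 2 * ∑ d ∈ DD D p₁, hd d := by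
      rw [Finset.mul_sum, ← Finset.sum_add_distrib]
      refine Finset.sum_congr rfl fun d _ => by ring
    rw [h1]
    have h2 := hBVX D hD8
    have h3 := hH D p₁
    have h4 : Real.log ((D : ℝ) + 2) ^ 2 ≤ Real.log X ^ 2 :=
      pow_le_pow_left₀ (Real.log_nonneg (by linarith [Nat.cast_nonneg (α := ℝ) D])) hDlog 2
    have h5 : 8 * Real.log X ^ 2 * ∑ d ∈ DD D p₁, hd d ≤
        8 * Real.log X ^ 2 * (CH * Real.log X ^ 2) := by
      gcongr
      exact h3.trans (by gcongr)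
    calc _ ≤ X / Real.log X ^ 3 + 8 * Real.log X ^ 2 * (CH * Real.log X ^ 2) := add_le_add h2 h5
      _ = _ := by ring
  have hL := hBL (Icc 1 (NX X)) (PZ z p₁) (wx X) (fun p n => (p : ℤ) ∣ (n : ℤ) ^ 2 - 2)
    (lv z) (fun j => b + j) (nl z) gg (WX X) (by
      intro n _
      unfold wx
      exact mul_nonneg ArithmeticFunction.vonMangoldt_nonneg (by
        unfold Pool.Agent.H27.LS.hat
        positivity)) hWX0
    (fun p hp => ⟨(gg_bounds hp).1, by linarith [(gg_bounds hp).2.2]⟩) lv1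
  have hSf : Sf (Icc 1 (NX X)) (wx X) (fun p n => (p : ℤ) ∣ (n : ℤ) ^ 2 - 2) (PZ z p₁) =
      ∑ n ∈ (Icc 1 (NX X)).filter
        (fun n : ℕ => ∀ p ∈ PZ z p₁, ¬ (p : ℤ) ∣ (n : ℤ) ^ 2 - 2), wx X n := by
    unfold Sf
    refine Finset.sum_congr ?_ fun _ _ => rfl
    ext n
    simp only [Finset.mem_filter]
  rw [hSf] at hL
  refine le_trans ?_ hL
  have hprod := hV z p₁ g3
  have hlX : 0 < Real.log X := by linarith
  have hmain : 4 * (c * X / Real.log X) ≤ WX X * (∏ p ∈ PZ z p₁, (1 - gg p)) *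
      (1 - ∑ j ∈ range (nl z), qj (PZ z p₁) (lv z) gg j (b + j)) := by
    have h1 : cV / (η * Real.log X) ≤ ∏ p ∈ PZ z p₁, (1 - gg p) := by rw [← hlz]; exact hprod
    have h2 : (1 / 2 : ℝ) ≤ 1 - ∑ j ∈ range (nl z), qj (PZ z p₁) (lv z) gg j (b + j) := by
      linarith
    calc 4 * (c * X / Real.log X) = (cW * X) * (cV / (η * Real.log X)) * (1 / 2) := by
          rw [hc]; field_simp; norm_num
      _ ≤ _ := by
        have h3 : 0 ≤ cV / (η * Real.log X) := by positivity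
        gcongr
        exact mul_nonneg hWX0 (h3.trans h1)
  have herr : ((nl z : ℝ) + 1) * Er (Icc 1 (NX X)) (wx X) (fun p n => (p : ℤ) ∣ (n : ℤ) ^ 2 - 2)
      gg (WX X) (PZ z p₁) (lv z) (fun j => b + j) (nl z) ≤ 2 * (c * X / Real.log X) := by
    have h1 : (nl z : ℝ) + 1 ≤ 2 * Real.log X := by
      have : 3 * Real.log z ≤ Real.log X := by
        rw [hlz]
        have h0 : η * Real.log X ≤ 1 / 120 * Real.log X :=
          mul_le_mul_of_nonneg_right hη1 (by linarith)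
        linarith
      linarith
    have h2 : 0 ≤ X / Real.log X ^ 3 + 8 * CH * Real.log X ^ 4 := by positivity
    calc _ ≤ ((nl z : ℝ) + 1) * (X / Real.log X ^ 3 + 8 * CH * Real.log X ^ 4) := by
          gcongr
          exact hEr.trans hEr2
      _ ≤ (2 * Real.log X) * (X / Real.log X ^ 3 + 8 * CH * Real.log X ^ 4) := by gcongr
      _ = (2 / Real.log X + 16 * CH * Real.log X ^ 6 / X) * (X / Real.log X) := by
        field_simp
        ring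
      _ ≤ (c + c) * (X / Real.log X) := by
        have h3 : 16 * CH * Real.log X ^ 6 / X ≤ c := by
          rw [div_le_iff₀ hX0]; exact g6
        gcongr
      _ = 2 * (c * X / Real.log X) := by ring
  have : 2 * c * X / Real.log X = 4 * (c * X / Real.log X) - 2 * (c * X / Real.log X) := by ring
  rw [this]
  linarith

end Pool.Agent.H87.BV
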