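import Pool.Agent.H87.BV.LL

/-! # Module UU of the board bv_modules: upper sieve in a residue class modulo `p₁` -/

set_option autoImplicit false

open Finset Real ArithmeticFunction
open scoped Nat

namespace Pool.Agent.H87.BV

open Pool.Agent.H30.BV
open Pool.Agent.H30.PF (S8 pr)

theorem gr_bounds {z : ℝ} {p₁ p : ℕ} (h : p ∈ PZ z p₁) :
    0 ≤ gr p ∧ gr p ≤ 3 / p ∧ gr p ≤ 1 / 2 := by
  obtain ⟨hp, h3, -⟩ := mem_PZ h
  have h3' : (3 : ℝ) ≤ p := by exact_mod_cast h3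
  unfold gr
  split_ifs with hS
  · have h6 : 6 ≤ p := by
      by_contra h5
      have h6 : p = 3 ∨ p = 4 ∨ p = 5 := by omega
      rcases h6 with rfl | rfl | rfl
      · rcases hS with h | h <;> omega
      · rcases hS with h | h <;> omega
      · rcases hS with h | h <;> omega
    have h6' : (6 : ℝ) ≤ p := by exact_mod_cast h6
    refine ⟨by positivity, le_rfl, ?_⟩
    rw [div_le_div_iff₀ (by linarith) (by norm_num)]
    linarith
  · refine ⟨by positivity, ?_, ?_⟩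
    · rw [div_le_div_iff₀ (by linarith) (by linarith)]
      linarith
    · rw [div_le_div_iff₀ (by linarith) (by norm_num)]
      linarith

theorem three_pow_le {z : ℝ} {p₁ : ℕ} {s : Finset ℕ} (hs : s ⊆ PZ z p₁) :
    3 ^ s.card ≤ ∏ p ∈ s, p := by
  rw [← Finset.prod_const]
  exact Finset.prod_le_prod' fun p hp => (mem_PZ (hs hp)).2.1

/-- the condition on `m` -/
def dvr (p₁ r : ℕ) (p m : ℕ) : Prop :=
  (p : ℤ) ∣ ((p₁ * m + r : ℕ) : ℤ) * (((p₁ * m + r : ℕ) : ℤ) ^ 2 - 2)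

theorem er_bound2 (hRH : T_RH) {z : ℝ} {p₁ : ℕ} (hp₁ : p₁.Prime) (r M : ℕ)
    {lev b : ℕ → ℕ} {t D : ℕ} (hD : ∀ s ∈ Sad (PZ z p₁) lev b t, ∏ p ∈ s, p ≤ D) :
    Er (range M) (fun _ => 1) (dvr p₁ r) gr M (PZ z p₁) lev b t ≤ (D : ℝ) * D := by
  unfold Er
  have hterm : ∀ s ∈ Sad (PZ z p₁) lev b t,
      |As (range M) (fun _ => 1) (dvr p₁ r) s - M * ∏ p ∈ s, gr p| ≤ (D : ℝ) := by
    intro s hs
    have h1 := hRH p₁ r M s hp₁ fun p hp => mem_PZ (Sad_sub hs hp)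
    have h2 : As (range M) (fun _ => 1) (dvr p₁ r) s =
        (((range M).filter (fun m : ℕ => ∀ p ∈ s, (p : ℤ) ∣
          ((p₁ * m + r : ℕ) : ℤ) * (((p₁ * m + r : ℕ) : ℤ) ^ 2 - 2))).card : ℝ) := by
      unfold As
      rw [Finset.sum_const, nsmul_eq_mul, mul_one]
      congr 2
      ext m
      simp only [Finset.mem_filter]
      exact Iff.rfl
    have h3 : 3 ^ s.card ≤ D := (three_pow_le (Sad_sub hs)).trans (hD s hs)
    have h4 : ((3 : ℝ) ^ s.card) ≤ D := by exact_mod_cast h3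
    rw [h2]
    exact h1.trans h4
  refine (Finset.sum_le_sum hterm).trans ?_
  rw [Finset.sum_const, nsmul_eq_mul]
  have hcard : (Sad (PZ z p₁) lev b t).card ≤ D := by
    have h4 := Finset.card_le_card_of_injOn (s := Sad (PZ z p₁) lev b t) (t := Icc 1 D)
      (fun s => ∏ p ∈ s, p) (fun s hs => by
        obtain ⟨-, -, -, -, h5, -⟩ := prod_facts hp₁ (Sad_sub hs)
        exact Finset.mem_coe.2 (Finset.mem_Icc.2 ⟨h5, hD s hs⟩)) (prod_injOn hp₁)
    rwa [Nat.card_Icc, Nat.add_sub_cancel] at h4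
  have hcard' : ((Sad (PZ z p₁) lev b t).card : ℝ) ≤ D := by exact_mod_cast hcard
  gcongr

/-- the square roots of two modulo an odd prime -/
theorem roots_card {p₁ : ℕ} (hp₁ : p₁.Prime) (h3 : 3 ≤ p₁) :
    ((range p₁).filter (fun r : ℕ => (p₁ : ℤ) ∣ (r : ℤ) ^ 2 - 2)).card ≤ 2 := by
  classical
  rcases ((range p₁).filter (fun r : ℕ => (p₁ : ℤ) ∣ (r : ℤ) ^ 2 - 2)).eq_empty_or_nonempty with
    h | ⟨a, ha⟩
  · rw [h]; simp
  · rw [Finset.mem_filter, Finset.mem_range] at ha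
    have hsub : (range p₁).filter (fun r : ℕ => (p₁ : ℤ) ∣ (r : ℤ) ^ 2 - 2) ⊆ {a, p₁ - a} := by
      intro r hr
      rw [Finset.mem_filter, Finset.mem_range] at hr
      have h1 : (p₁ : ℤ) ∣ ((r : ℤ) - a) * (r + a) := by
        have h2 := dvd_sub hr.2 ha.2
        have h3 : ((r : ℤ) ^ 2 - 2) - ((a : ℤ) ^ 2 - 2) = ((r : ℤ) - a) * (r + a) := by ring
        rwa [h3] at h2
      rw [Finset.mem_insert, Finset.mem_singleton]
      rcases (Nat.prime_iff_prime_int.1 hp₁).dvd_or_dvd h1 with h2 | h2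
      · left
        obtain ⟨k, hk⟩ := h2
        have hk1 : k < 1 := by
          by_contra hk1
          have : (p₁ : ℤ) * 1 ≤ p₁ * k := mul_le_mul_of_nonneg_left (by omega) (by omega)
          omega
        have hk2 : -1 < k := by
          by_contra hk1
          have : (p₁ : ℤ) * k ≤ p₁ * (-1) := mul_le_mul_of_nonneg_left (by omega) (by omega)
          omega
        have hk0 : k = 0 := by omega
        rw [hk0, mul_zero] at hk
        omega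
      · right
        obtain ⟨k, hk⟩ := h2
        have hk1 : k < 2 := by
          by_contra hk1
          have : (p₁ : ℤ) * 2 ≤ p₁ * k := mul_le_mul_of_nonneg_left (by omega) (by omega)
          omega
        have hk2 : 0 < k ∨ (r = 0 ∧ a = 0) := by
          by_contra hk1
          push Not at hk1
          have h5 : (p₁ : ℤ) * k ≤ p₁ * 0 := mul_le_mul_of_nonneg_left (by omega) (by omega)
          have h6 : r = 0 ∧ a = 0 := by omega
          exact hk1.2 h6.1 h6.2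
        rcases hk2 with hk2 | ⟨hr0, ha0⟩
        · have hk0 : k = 1 := by omega
          rw [hk0, mul_one] at hk
          omega
        · exfalso
          have h7 := ha.2
          rw [ha0] at h7
          have h8 : (p₁ : ℤ) ∣ 2 := by
            have := (dvd_neg).2 h7
            simpa using this
          have h9 := Int.le_of_dvd (by norm_num) h8
          omega
    exact (Finset.card_le_card hsub).trans Finset.card_le_two

theorem uu (hBU : T_BU) (hQJ : T_QJ) (hVU : T_VU) (hRH : T_RH) (hLV : T_LV) : T_UU := by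
  classical
  obtain ⟨b, hb⟩ := hQJ
  obtain ⟨CV, hCV, hV⟩ := hVU
  refine ⟨1 / (64 * (4 * b + 6)), by positivity, ?_⟩
  intro η hη hη0
  have hb0 : (0 : ℝ) ≤ b := Nat.cast_nonneg b
  have hηb : η * (4 * b + 6) ≤ 1 / 64 := by
    calc η * (4 * b + 6) ≤ 1 / (64 * (4 * b + 6)) * (4 * b + 6) := by gcongr
      _ = 1 / 64 := by field_simp
  obtain ⟨X₀, hX₀⟩ := ev_facts η hη 1 0 1 one_pos
  refine ⟨36 * CV / η ^ 2 + 2, X₀, by positivity, ?_⟩
  intro X p₁ hX hp₁ hp3 hp8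
  obtain ⟨g1, g2, g3, g4, -, -⟩ := hX₀ X hX
  have hX0 : 0 < X := by linarith
  have hX1 : 1 ≤ X := g1
  obtain ⟨z, hz⟩ : ∃ z : ℝ, z = X ^ η := ⟨_, rfl⟩
  rw [← hz] at g3 ⊢
  have hlz : Real.log z = η * Real.log X := by rw [hz, Real.log_rpow hX0]
  obtain ⟨lv1, lv2, lv3, lv4⟩ := hLV z p₁ g3
  have hQ := hb z p₁ gr g3 fun p hp => gr_bounds hp
  have hVz := hV z p₁ g3 hp3
  have hp3' : (3 : ℝ) ≤ p₁ := by exact_mod_cast hp3
  have hpX : (p₁ : ℝ) ≤ X ^ (1 / 8 : ℝ) := by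
    calc (p₁ : ℝ) = ((p₁ : ℝ) ^ 8) ^ (1 / 8 : ℝ) := by
          rw [← Real.rpow_natCast, ← Real.rpow_mul (by positivity)]; norm_num
      _ ≤ X ^ (1 / 8 : ℝ) := Real.rpow_le_rpow (by positivity) hp8 (by norm_num)
  have hpX1 : (p₁ : ℝ) ≤ X := hpX.trans (by
    calc X ^ (1 / 8 : ℝ) ≤ X ^ (1 : ℝ) := Real.rpow_le_rpow_of_exponent_le hX1 (by norm_num)
      _ = X := Real.rpow_one X)
  obtain ⟨D, hD⟩ : ∃ D : ℕ, D = ⌊X ^ (1 / 64 : ℝ)⌋₊ := ⟨_, rfl⟩
  have hDle : (D : ℝ) ≤ X ^ (1 / 64 : ℝ) := by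
    rw [hD]; exact Nat.floor_le (by positivity)
  have hDs : ∀ s ∈ Sad (PZ z p₁) (lv z) (fun j => b + j) (nl z), ∏ p ∈ s, p ≤ D := by
    intro s hs
    rw [hD]
    apply Nat.le_floor
    refine (lv3 b s hs).trans ?_
    rw [hz, ← Real.rpow_natCast, ← Real.rpow_mul hX0.le]
    apply Real.rpow_le_rpow_of_exponent_le hX1
    push_cast
    exact hηb
  -- the number of `m`
  obtain ⟨M, hM⟩ : ∃ M : ℕ, M = NX X / p₁ + 1 := ⟨_, rfl⟩
  have hMX : (M : ℝ) ≤ 6 * X / p₁ := by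
    have h1 : ((NX X / p₁ : ℕ) : ℝ) ≤ (NX X : ℝ) / p₁ := Nat.cast_div_le
    have h2 : (NX X : ℝ) ≤ 3 * X + 1 := by
      unfold NX
      exact (Nat.ceil_lt_add_one (by positivity)).le
    have h3 : (M : ℝ) ≤ (3 * X + 1) / p₁ + 1 := by
      rw [hM]
      push_cast
      have : (NX X : ℝ) / p₁ ≤ (3 * X + 1) / p₁ := by gcongr
      linarith
    refine h3.trans ?_
    rw [div_add_one (by linarith : (p₁ : ℝ) ≠ 0)]
    gcongr
    linarith
  -- the bound for one residue class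
  obtain ⟨B, hB⟩ : ∃ B : ℝ, B = M * (CV / Real.log z ^ 2) * 3 + (D : ℝ) * D := ⟨_, rfl⟩
  have hone : ∀ r : ℕ, (((range M).filter (fun m : ℕ => ∀ p ∈ PZ z p₁, ¬ dvr p₁ r p m)).card : ℝ)
      ≤ B := by
    intro r
    have h1 := hBU (range M) (PZ z p₁) (fun _ => 1) (dvr p₁ r) (lv z) (fun j => b + j) (nl z) gr M
      (fun _ _ => by norm_num) (Nat.cast_nonneg M)
      (fun p hp => ⟨(gr_bounds hp).1, by linarith [(gr_bounds hp).2.2]⟩) lv1
    have h2 : Sf (range M) (fun _ => 1) (dvr p₁ r) (PZ z p₁) =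
        (((range M).filter (fun m : ℕ => ∀ p ∈ PZ z p₁, ¬ dvr p₁ r p m)).card : ℝ) := by
      unfold Sf
      rw [Finset.sum_const, nsmul_eq_mul, mul_one]
    rw [h2] at h1
    refine h1.trans ?_
    rw [hB]
    refine add_le_add ?_ (er_bound2 hRH hp₁ r M hDs)
    have h3 : Real.exp (∑ j ∈ range (nl z), qj (PZ z p₁) (lv z) gr j (b + j)) ≤ 3 := by
      have h4 : Real.exp (∑ j ∈ range (nl z), qj (PZ z p₁) (lv z) gr j (b + j)) ≤ Real.exp 1 :=
        Real.exp_le_exp.2 (by linarith)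
      linarith [Real.exp_one_lt_d9]
    have h5 : 0 ≤ CV / Real.log z ^ 2 := by positivity
    gcongr
  -- the roots
  have hsub : (Icc 1 (NX X)).filter (fun n : ℕ => (p₁ : ℤ) ∣ (n : ℤ) ^ 2 - 2 ∧
      ∀ p ∈ PZ z p₁, ¬ (p : ℤ) ∣ (n : ℤ) * ((n : ℤ) ^ 2 - 2)) ⊆
      ((range p₁).filter (fun r : ℕ => (p₁ : ℤ) ∣ (r : ℤ) ^ 2 - 2)).biUnion
        (fun r => ((range M).filter (fun m : ℕ => ∀ p ∈ PZ z p₁, ¬ dvr p₁ r p m)).image
          (fun m => p₁ * m + r)) := by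
    intro n hn
    rw [Finset.mem_filter, Finset.mem_Icc] at hn
    obtain ⟨⟨hn1, hn2⟩, hn3, hn4⟩ := hn
    have hdm : p₁ * (n / p₁) + n % p₁ = n := Nat.div_add_mod n p₁
    rw [Finset.mem_biUnion]
    refine ⟨n % p₁, ?_, ?_⟩
    · rw [Finset.mem_filter, Finset.mem_range]
      refine ⟨Nat.mod_lt _ hp₁.pos, ?_⟩
      have h1 : (n : ℤ) = p₁ * ((n / p₁ : ℕ) : ℤ) + ((n % p₁ : ℕ) : ℤ) := by exact_mod_cast hdm.symm
      have h2 : (((n % p₁ : ℕ) : ℤ)) ^ 2 - 2 = ((n : ℤ) ^ 2 - 2) -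
          p₁ * (((n / p₁ : ℕ) : ℤ) * (n + ((n % p₁ : ℕ) : ℤ))) := by
        rw [show (((n % p₁ : ℕ) : ℤ)) = n - p₁ * ((n / p₁ : ℕ) : ℤ) by rw [h1]; push_cast; ring]
        ring
      rw [h2]
      exact dvd_sub hn3 (dvd_mul_right _ _)
    · rw [Finset.mem_image]
      refine ⟨n / p₁, ?_, hdm⟩
      rw [Finset.mem_filter, Finset.mem_range]
      refine ⟨?_, ?_⟩
      · rw [hM]
        exact Nat.lt_succ_of_le (Nat.div_le_div_right hn2)
      · intro p hp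
        unfold dvr
        rw [hdm]
        exact hn4 p hp
  have hcard : (((Icc 1 (NX X)).filter (fun n : ℕ => (p₁ : ℤ) ∣ (n : ℤ) ^ 2 - 2 ∧
      ∀ p ∈ PZ z p₁, ¬ (p : ℤ) ∣ (n : ℤ) * ((n : ℤ) ^ 2 - 2))).card : ℝ) ≤ 2 * B := by
    have h1 := (Finset.card_le_card hsub).trans Finset.card_biUnion_le
    have h2 : (((Icc 1 (NX X)).filter (fun n : ℕ => (p₁ : ℤ) ∣ (n : ℤ) ^ 2 - 2 ∧
        ∀ p ∈ PZ z p₁, ¬ (p : ℤ) ∣ (n : ℤ) * ((n : ℤ) ^ 2 - 2))).card : ℝ) ≤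
        ∑ r ∈ (range p₁).filter (fun r : ℕ => (p₁ : ℤ) ∣ (r : ℤ) ^ 2 - 2),
          ((((range M).filter (fun m : ℕ => ∀ p ∈ PZ z p₁, ¬ dvr p₁ r p m)).image
            (fun m => p₁ * m + r)).card : ℝ) := by
      exact_mod_cast h1
    refine h2.trans ?_
    have hB0 : 0 ≤ B := by
      rw [hB]
      positivity
    calc _ ≤ ∑ r ∈ (range p₁).filter (fun r : ℕ => (p₁ : ℤ) ∣ (r : ℤ) ^ 2 - 2), B := by
          refine Finset.sum_le_sum fun r _ => ?_
          refine le_trans ?_ (hone r)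
          exact_mod_cast Finset.card_image_le
      _ = (((range p₁).filter (fun r : ℕ => (p₁ : ℤ) ∣ (r : ℤ) ^ 2 - 2)).card : ℝ) * B := by
          rw [Finset.sum_const, nsmul_eq_mul]
      _ ≤ 2 * B := by
          have : (((range p₁).filter (fun r : ℕ => (p₁ : ℤ) ∣ (r : ℤ) ^ 2 - 2)).card : ℝ) ≤ 2 := by
            exact_mod_cast roots_card hp₁ hp3
          gcongr
  refine hcard.trans ?_
  have hlX : 0 < Real.log X := by linarith
  have hp0 : (0 : ℝ) < p₁ := by linarith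
  have hDD : (D : ℝ) * D ≤ X / (p₁ * Real.log X ^ 2) := by
    rw [le_div_iff₀ (by positivity)]
    have h1 : Real.log X ≤ 4 * X ^ (1 / 4 : ℝ) := by
      have := Real.log_le_rpow_div hX0.le (show (0 : ℝ) < 1 / 4 by norm_num)
      calc Real.log X ≤ X ^ (1 / 4 : ℝ) / (1 / 4) := this
        _ = 4 * X ^ (1 / 4 : ℝ) := by ring
    have h2 : (16 : ℝ) ≤ X ^ (1 / 4 : ℝ) := by
      calc (16 : ℝ) = ((256 : ℝ) ^ 2) ^ (1 / 4 : ℝ) := by
            rw [show (256 : ℝ) ^ 2 = 16 ^ 4 by norm_num, ← Real.rpow_natCast,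
              ← Real.rpow_mul (by norm_num)]; norm_num
        _ ≤ X ^ (1 / 4 : ℝ) := Real.rpow_le_rpow (by norm_num) g2 (by norm_num)
    calc (D : ℝ) * D * (p₁ * Real.log X ^ 2) ≤
          X ^ (1 / 64 : ℝ) * X ^ (1 / 64 : ℝ) * (X ^ (1 / 8 : ℝ) * (4 * X ^ (1 / 4 : ℝ)) ^ 2) := by
          gcongr
      _ = 16 * (X ^ (1 / 64 : ℝ) * X ^ (1 / 64 : ℝ) * X ^ (1 / 8 : ℝ) * X ^ (1 / 4 : ℝ) *
            X ^ (1 / 4 : ℝ)) := by ring
      _ ≤ X ^ (1 / 4 : ℝ) * (X ^ (1 / 64 : ℝ) * X ^ (1 / 64 : ℝ) * X ^ (1 / 8 : ℝ) *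
            X ^ (1 / 4 : ℝ) * X ^ (1 / 4 : ℝ)) := by gcongr
      _ = X ^ (1 / 4 + (1 / 64 + 1 / 64 + 1 / 8 + 1 / 4 + 1 / 4) : ℝ) := by
          rw [← Real.rpow_add hX0, ← Real.rpow_add hX0, ← Real.rpow_add hX0, ← Real.rpow_add hX0,
            ← Real.rpow_add hX0]
      _ ≤ X ^ (1 : ℝ) := Real.rpow_le_rpow_of_exponent_le hX1 (by norm_num)
      _ = X := Real.rpow_one X
  have hBX : B ≤ (18 * CV / η ^ 2 + 1) * (X / (p₁ * Real.log X ^ 2)) := by
    rw [hB, hlz]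
    have h1 : (M : ℝ) * (CV / (η * Real.log X) ^ 2) * 3 ≤
        6 * X / p₁ * (CV / (η * Real.log X) ^ 2) * 3 := by gcongr
    have h2 : 6 * X / p₁ * (CV / (η * Real.log X) ^ 2) * 3 =
        18 * CV / η ^ 2 * (X / (p₁ * Real.log X ^ 2)) := by
      field_simp
      norm_num
    rw [add_mul, one_mul, ← h2]
    exact add_le_add h1 hDD
  calc 2 * B ≤ 2 * ((18 * CV / η ^ 2 + 1) * (X / (p₁ * Real.log X ^ 2))) := by gcongr
    _ = (36 * CV / η ^ 2 + 2) * X / (p₁ * Real.log X ^ 2) := by ring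

end Pool.Agent.H87.BV
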